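import Mathlib
import Pool.Agent.H56.Sb5

namespace Pool.Agent.Results.MP_7fc841_nt.Full
open Finset Pool.Agent.H56.Sb2 Pool.Agent.H56.Sb5

theorem result (p : ℕ) (hp : p.Prime) (h3 : 3 < p) (r : ℕ) (hr : 1 ≤ r) :
    ∃ u v : ℤ, ¬ (p : ℤ) ∣ v ∧
      (∑ k ∈ range ((p ^ r - 1) + 1), (2 * ((p ^ r - 1 : ℕ) : ℚ) * k - 1) *
        ((∏ j ∈ range k, (-1 / ((p ^ r - 1 : ℕ) : ℚ) + j)) / (k.factorial : ℚ)) ^
          (2 * (p ^ r - 1))) / (p : ℚ) ^ (2 * r + 3) = u / v := by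
  have : Fact p.Prime := ⟨hp⟩
  obtain ⟨r, rfl⟩ : ∃ s, r = s + 1 := ⟨r - 1, by omega⟩
  have hpos : 1 ≤ p ^ (r + 1) := Nat.one_le_pow _ _ hp.pos
  set N := p ^ (r + 1) - 1 with hN
  have hN1 : N + 1 = p ^ (r + 1) := by omega
  have hnd : ¬ p ∣ N := by
    intro h
    have h2 : p ∣ N + 1 := by rw [hN1]; exact dvd_pow_self _ (by omega)
    have := Nat.le_of_dvd one_pos ((Nat.dvd_add_right h).1 h2)
    omega
  have hN0 : (N : ℚ) ≠ 0 := by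
    rintro h0; apply hnd
    have : N = 0 := by exact_mod_cast h0
    simp [this]
  have hq : (p : ℚ) ^ (r + 1) = N + 1 := by exact_mod_cast hN1.symm
  obtain ⟨z, hz, h⟩ := (bridge h3 r N hnd).1
  have hp0 : (p : ℚ) ≠ 0 := by positivity
  have hS : ∑ k ∈ range (N + 1), (2 * (N : ℚ) * k - 1) *
        ((∏ j ∈ range k, (-1 / (N : ℚ) + j)) / (k.factorial : ℚ)) ^ (2 * N)
      = (p : ℚ) ^ (2 * (r + 1) + 3) * (-z) := by
    rw [mul_neg, ← h, hN1, ← Finset.sum_neg_distrib]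
    refine Finset.sum_congr rfl fun k _ => ?_
    rw [← poch_div, hq, show 1 - (N : ℚ)⁻¹ * (N + 1) = -1 / N by field_simp; ring]
    generalize ((∏ j ∈ range k, (-1 / (N : ℚ) + j)) / (k.factorial : ℚ)) ^ (2 * N) = F
    field_simp
    ring
  rw [hS, mul_div_cancel_left₀ _ (pow_ne_zero _ hp0)]
  exact (neg_mem hz : _ ∈ Zp p)

end Pool.Agent.Results.MP_7fc841_nt.Full
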